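import Mathlib

set_option autoImplicit false

namespace Pool.Agent.Results.MP_295a7b_co.Cex

open Finset

def pa : Fin 19 → Fin 8 := ![1, 2, 0, 1, 1, 3, 4, 2, 2, 1, 2, 0, 1, 0, 0, 0, 0, 4, 3]
def pb : Fin 19 → Fin 8 := ![3, 3, 1, 4, 6, 5, 5, 6, 5, 2, 3, 1, 3, 2, 2, 3, 4, 5, 4]
def pc : Fin 19 → Fin 8 := ![5, 7, 7, 7, 7, 7, 6, 7, 6, 5, 4, 3, 6, 5, 7, 4, 5, 7, 6]

def poly (a b c d e f g h : ℕ) : ℕ :=
  b*d*f + c*d*h + a*b*h + b*e*h + b*g*h + d*f*h + e*f*g + c*g*h + c*f*g + b*c*f + c*d*e + a*b*d +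
    b*d*g + a*c*f + a*c*h + a*d*e + a*e*f + e*f*h + d*e*g

def chk : Bool :=
  (List.range 10).all fun a => (List.range (10 - a)).all fun b =>
  (List.range (10 - a - b)).all fun c => (List.range (10 - a - b - c)).all fun d =>
  (List.range (10 - a - b - c - d)).all fun e => (List.range (10 - a - b - c - d - e)).all fun f =>
  (List.range (10 - a - b - c - d - e - f)).all fun g =>
  (List.range (10 - a - b - c - d - e - f - g)).all fun h => Nat.ble (poly a b c d e f g h) 27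

lemma chk_ok : chk = true := by decide +kernel

lemma poly_le (w : Fin 8 → ℕ) (hw : ∑ i, w i ≤ 9) :
    ∑ l, w (pa l) * w (pb l) * w (pc l) ≤ 27 := by
  have h := chk_ok
  simp only [chk, List.all_eq_true, List.mem_range, Nat.ble_eq] at h
  rw [Fin.sum_univ_eight] at hw
  have := h (w 0) (by omega) (w 1) (by omega) (w 2) (by omega) (w 3) (by omega) (w 4) (by omega)
    (w 5) (by omega) (w 6) (by omega) (w 7) (by omega)
  refine le_trans (le_of_eq ?_) this
  have e : ∑ l, w (pa l) * w (pb l) * w (pc l) =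
    (w 1 * w 3 * w 5 + (w 2 * w 3 * w 7 + (w 0 * w 1 * w 7 + (w 1 * w 4 * w 7 + (w 1 * w 6 * w 7 + (w 3 * w 5 * w 7 + (w 4 * w 5 * w 6 + (w 2 * w 6 * w 7 + (w 2 * w 5 * w 6 + (w 1 * w 2 * w 5 + (w 2 * w 3 * w 4 + (w 0 * w 1 * w 3 + (w 1 * w 3 * w 6 + (w 0 * w 2 * w 5 + (w 0 * w 2 * w 7 + (w 0 * w 3 * w 4 + (w 0 * w 4 * w 5 + (w 4 * w 5 * w 7 + (w 3 * w 4 * w 6 + 0))))))))))))))))))) := by
    simp only [Fin.sum_univ_succ, Fin.sum_univ_zero]
    rfl
  rw [e, poly]
  ring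

lemma dist : ∀ l, pa l ≠ pb l ∧ pa l ≠ pc l ∧ pb l ≠ pc l := by decide

lemma tri_inj : ∀ l l', ({pa l, pb l, pc l} : Finset (Fin 8)) = {pa l', pb l', pc l'} → l = l' := by
  decide

def g0 {t : ℕ} (x : Fin 19 × Fin t × Fin t × Fin t) : Finset (Fin 8 × Fin t) :=
  {(pa x.1, x.2.1), (pb x.1, x.2.2.1), (pc x.1, x.2.2.2)}

lemma g0_inj {t : ℕ} : Function.Injective (g0 (t := t)) := by
  rintro ⟨l, x, y, z⟩ ⟨l', x', y', z'⟩ h
  have h1 : l = l' := by
    apply tri_inj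
    have := congrArg (Finset.image Prod.fst) h
    simpa [g0] using this
  subst h1
  obtain ⟨d1, d2, d3⟩ := dist l
  have hx : (pa l, x) ∈ g0 (l, x', y', z') := by rw [← h]; simp [g0]
  have hy : (pb l, y) ∈ g0 (l, x', y', z') := by rw [← h]; simp [g0]
  have hz : (pc l, z) ∈ g0 (l, x', y', z') := by rw [← h]; simp [g0]
  simp [g0, d1, d2, d3, d1.symm, d2.symm, d3.symm] at hx hy hz
  simp [hx, hy, hz]

lemma g0_card {t : ℕ} (x : Fin 19 × Fin t × Fin t × Fin t) : (g0 x).card = 3 := by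
  obtain ⟨d1, d2, d3⟩ := dist x.1
  unfold g0
  rw [card_eq_three]
  exact ⟨_, _, _, by simp [d1], by simp [d2], by simp [d3], rfl⟩

theorem result : ∀ n : ℕ, 4000 ≤ n → ∃ E : Finset (Finset (Fin (3 * n))),
    (∀ e ∈ E, e.card = 3) ∧ E.card = n ^ 3 + 1 ∧
    ∀ S : Finset (Fin (3 * n)), S.card = 9 → (E.filter (fun e => e ⊆ S)).card ≤ 27 := by
  intro n hn
  set t := 3 * n / 8 with ht
  obtain ⟨f⟩ : Nonempty (Fin 8 × Fin t ↪ Fin (3 * n)) := by
    apply Function.Embedding.nonempty_of_card_le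
    simp only [Fintype.card_prod, Fintype.card_fin]
    omega
  let g : Fin 19 × Fin t × Fin t × Fin t → Finset (Fin (3 * n)) := fun x => (g0 x).map f
  have hg : Function.Injective g := fun x y h => g0_inj (map_injective f h)
  have hcard : n ^ 3 + 1 ≤ (univ.image g).card := by
    rw [card_image_of_injective _ hg]
    simp only [card_univ, Fintype.card_prod, Fintype.card_fin]
    obtain ⟨k, rfl⟩ : ∃ k, n = k + 4000 := ⟨n - 4000, by omega⟩
    have h1 : 3 * k + 11993 ≤ 8 * t := by omega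
    have h2 : (3 * k + 11993) ^ 3 ≤ (8 * t) ^ 3 := Nat.pow_le_pow_left h1 3
    have h3 : 512 * ((k + 4000) ^ 3 + 1) ≤ 19 * (3 * k + 11993) ^ 3 := by
      ring_nf; omega
    nlinarith
  obtain ⟨E, hE, hEc⟩ := exists_subset_card_eq hcard
  refine ⟨E, ?_, hEc, ?_⟩
  · intro e he
    obtain ⟨x, -, rfl⟩ := mem_image.1 (hE he)
    simp only [g, card_map, g0_card]
  · intro S hS
    let W : Fin 8 → Finset (Fin t) := fun i => univ.filter (fun x => f (i, x) ∈ S)
    have hw : ∑ i, (W i).card ≤ 9 := by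
      rw [← hS, ← card_sigma]
      apply card_le_card_of_injOn (fun p => f (p.1, p.2))
      · intro p hp
        simpa [W] using hp
      · rintro ⟨a, b⟩ _ ⟨c, d⟩ _ h
        have := f.injective h
        simp only [Prod.mk.injEq] at this
        obtain ⟨rfl, rfl⟩ := this
        rfl
    refine le_trans ?_ (poly_le _ hw)
    have hsub : E.filter (fun e => e ⊆ S) ⊆
        univ.biUnion (fun l => (W (pa l) ×ˢ W (pb l) ×ˢ W (pc l)).image (fun y => g (l, y))) := by
      intro e he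
      rw [mem_filter] at he
      obtain ⟨⟨l, x, y, z⟩, -, rfl⟩ := mem_image.1 (hE he.1)
      rw [mem_biUnion]
      refine ⟨l, mem_univ _, mem_image.2 ⟨(x, y, z), ?_, rfl⟩⟩
      simp only [mem_product, W, mem_filter, mem_univ, true_and]
      refine ⟨he.2 ?_, he.2 ?_, he.2 ?_⟩ <;> simp [g, g0]
    refine (card_le_card hsub).trans (card_biUnion_le.trans (sum_le_sum fun l _ => ?_))
    refine card_image_le.trans (le_of_eq ?_)
    simp [card_product, mul_assoc]

end Pool.Agent.Results.MP_295a7b_co.Cex
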